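import Pool.Agent.Y5.V.Stm
import Pool.Agent.Y809.EK.CJ1
import Pool.Agent.Y978.EK.CJ2
import Pool.Agent.Y691.ND.FLDB

/-! The interactions of the chain with the damped modes (for helper5's project VL). -/

open Set Filter Topology

set_option autoImplicit false

namespace Pool.Agent.Y177.VL.XN4

open Pool.Agent.Y5 Pool.Agent.Y5.D Pool.Agent.Y5.V
open Pool.Agent.Y6.K (Em Ac cvf Chain S_CJ1 S_CJ2)
open Pool.Agent.Y6.M (nsq)
open Pool.Agent.Y302.Trunc (Lev rho rb)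

/-- sums over pairs with finitely many second components -/
lemma tsum_fin (F : Z3 × Z3 → ℝ) (U : Finset Z3) (hU : ∀ p k, k ∉ U → F (p, k) = 0)
    (hs : ∀ k ∈ U, Summable fun p => F (p, k)) :
    ∑' q, F q = ∑ k ∈ U, ∑' p, F (p, k) := by
  classical
  have inj : ∀ k : Z3, Function.Injective (fun p : Z3 => (p, k)) := fun k a b h => by
    simpa using h
  let G : Z3 → Z3 × Z3 → ℝ := fun k q => if q.2 = k then F q else 0
  have hsupp : ∀ k, Function.support (G k) ⊆ Set.range (fun p : Z3 => (p, k)) := by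
    intro k q hq
    by_cases h : q.2 = k
    · exact ⟨q.1, by rw [← h]⟩
    · exact absurd (if_neg h) hq
  have hcomp : ∀ k, (fun p : Z3 => G k (p, k)) = fun p => F (p, k) := by
    intro k
    funext p
    exact if_pos rfl
  have h1 : ∀ k ∈ U, Summable (G k) := by
    intro k hk
    have := ((inj k).summable_iff (f := G k) (by
      intro q hq
      by_contra h
      exact hq (hsupp k h))).1 (by
        show Summable (fun p : Z3 => G k (p, k))
        rw [hcomp k]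
        exact hs k hk)
    exact this
  have h2 : ∀ k, ∑' q, G k q = ∑' p, F (p, k) := by
    intro k
    rw [← (inj k).tsum_eq (hsupp k)]
    exact tsum_congr fun p => if_pos rfl
  have h3 : F = fun q => ∑ k ∈ U, G k q := by
    funext q
    by_cases hq : q.2 ∈ U
    · rw [Finset.sum_eq_single_of_mem q.2 hq (fun b _ hb => if_neg (Ne.symm hb))]
      exact (if_pos rfl).symm
    · have h0 : ∑ k ∈ U, G k q = 0 := Finset.sum_eq_zero (fun b hb => if_neg (fun h : q.2 = b =>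
        hq (h ▸ hb)))
      rw [h0]
      exact hU q.1 q.2 hq
  rw [h3, Summable.tsum_finsetSum h1]
  rw [← h3]
  exact Finset.sum_congr rfl fun k _ => h2 k

/-- the Cauchy-Schwarz inequality -/
lemma cs {g h : Z3 → ℝ} (g0 : ∀ p, 0 ≤ g p) (h0 : ∀ p, 0 ≤ h p) (hg : Summable fun p => g p ^ 2)
    (hh : Summable fun p => h p ^ 2) : Summable (fun p => g p * h p) ∧
      ∑' p, g p * h p ≤ √(∑' p, g p ^ 2) * √(∑' p, h p ^ 2) := by
  have key : ∀ s : Finset Z3, ∑ p ∈ s, g p * h p ≤ √(∑' p, g p ^ 2) * √(∑' p, h p ^ 2) := by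
    intro s
    have h1 := Finset.sum_mul_sq_le_sq_mul_sq s g h
    have h2 : ∑ p ∈ s, g p ^ 2 ≤ ∑' p, g p ^ 2 := hg.sum_le_tsum s (fun _ _ => sq_nonneg _)
    have h3 : ∑ p ∈ s, h p ^ 2 ≤ ∑' p, h p ^ 2 := hh.sum_le_tsum s (fun _ _ => sq_nonneg _)
    rw [← Real.sqrt_mul (tsum_nonneg fun _ => sq_nonneg _)]
    apply Real.le_sqrt_of_sq_le
    refine h1.trans ?_
    exact mul_le_mul h2 h3 (Finset.sum_nonneg fun _ _ => sq_nonneg _)
      (tsum_nonneg fun _ => sq_nonneg _)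
  have hsum : Summable (fun p => g p * h p) :=
    summable_of_sum_le (fun p => mul_nonneg (g0 p) (h0 p)) key
  exact ⟨hsum, hsum.tsum_le_of_sum_le key⟩

lemma nsq_vec (k : Z3) : ‖vec k‖ ^ 2 = ((nsq k : ℤ) : ℝ) := Pool.Agent.Y809.EK.norm_vec k

lemma lac_iff (k : Z3) : lac (nsq k) ↔ ∃ n, k ∈ Lev 1 n := by
  have h : ∀ n, k ∈ Lev 1 n ↔ nsq k = 64 ^ (n / 4) * rb (n % 4) := by
    intro n
    rw [Pool.Agent.Y809.EK.mem_lev, nsq_vec, ← Pool.Agent.Y809.EK.rho_eq, Int.cast_inj]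
  constructor
  · rintro ⟨j, h1 | h1 | h1 | h1⟩
    · refine ⟨4 * j, (h _).2 ?_⟩
      have e1 : 4 * j / 4 = j := by omega
      have e2 : 4 * j % 4 = 0 := by omega
      rw [e1, e2, h1]
      exact mul_comm _ _
    · refine ⟨4 * j + 1, (h _).2 ?_⟩
      have e1 : (4 * j + 1) / 4 = j := by omega
      have e2 : (4 * j + 1) % 4 = 1 := by omega
      rw [e1, e2, h1]
      exact mul_comm _ _
    · refine ⟨4 * j + 2, (h _).2 ?_⟩
      have e1 : (4 * j + 2) / 4 = j := by omega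
      have e2 : (4 * j + 2) % 4 = 2 := by omega
      rw [e1, e2, h1]
      exact mul_comm _ _
    · refine ⟨4 * j + 3, (h _).2 ?_⟩
      have e1 : (4 * j + 3) / 4 = j := by omega
      have e2 : (4 * j + 3) % 4 = 3 := by omega
      rw [e1, e2, h1]
      exact mul_comm _ _
  · rintro ⟨n, hn⟩
    have h1 := (h n).1 hn
    have h2 : n % 4 < 4 := Nat.mod_lt _ (by norm_num)
    refine ⟨n / 4, ?_⟩
    generalize n % 4 = i at h1 h2
    interval_cases i
    · left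
      rw [h1]
      exact mul_comm _ _
    · right; left
      rw [h1]
      exact mul_comm _ _
    · right; right; left
      rw [h1]
      exact mul_comm _ _
    · right; right; right
      rw [h1]
      exact mul_comm _ _

/-- the part of the chain -/
lemma wch_eq {w : Fam} {x : ℕ → ℝ} (hw : ∀ n, ∀ k ∈ Lev 1 n, w k = x n • Em n k) (k : Z3) :
    (lac (nsq k) → wch x k = w k) ∧ (¬ lac (nsq k) → wch x k = 0) := by
  rw [lac_iff]
  constructor
  · rintro ⟨n, hn⟩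
    unfold wch
    rw [tsum_eq_single n, hw n k hn]
    intro m hm
    rw [Pool.Agent.Y809.EK.Em_not (fun h => hm
      (Pool.Agent.Y302.Trunc.Lev_disjoint one_pos h hn)), smul_zero]
  · intro h
    unfold wch
    have : (fun m : ℕ => x m • Em m k) = fun _ => 0 := by
      funext m
      rw [Pool.Agent.Y809.EK.Em_not (fun h' => h ⟨m, h'⟩), smul_zero]
    rw [this, tsum_zero]

lemma norm_Em_le (n : ℕ) (k : Z3) : ‖Em n k‖ ≤ 1 := by
  by_cases hk : k ∈ Lev 1 n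
  · have h1 := Pool.Agent.Y809.EK.pair_Em n
    unfold pair at h1
    rw [tsum_eq_sum (s := Lev 1 n) (fun k hk => by
      rw [Pool.Agent.Y809.EK.Em_not hk, inner_zero_left])] at h1
    have h2 : inner ℝ (Em n k) (Em n k) ≤ ∑ k ∈ Lev 1 n, inner ℝ (Em n k) (Em n k) :=
      Finset.single_le_sum (f := fun k => (inner ℝ (Em n k) (Em n k) : ℝ))
        (fun _ _ => real_inner_self_nonneg) hk
    rw [h1, real_inner_self_eq_norm_sq] at h2
    have h3 := norm_nonneg (Em n k)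
    nlinarith
  · rw [Pool.Agent.Y809.EK.Em_not hk, norm_zero]
    exact zero_le_one

lemma Ac_pos (n : ℕ) : 0 < Ac n := by
  have h := Pool.Agent.Y978.EK.chain
  induction n with
  | zero => exact lt_of_lt_of_le one_pos h.A0
  | succ n ih => exact lt_of_lt_of_le (by positivity) (h.lo n)

lemma vec_lev {n : ℕ} {k : Z3} (hk : k ∈ Lev 1 n) : ‖vec k‖ ≤ 10 * Ac n := by
  have h1 := (Pool.Agent.Y809.EK.mem_lev n k).1 hk
  have h2 := (Pool.Agent.Y978.EK.size n).1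
  have h3 : ‖vec k‖ ^ 2 ≤ (10 * Ac n) ^ 2 := by
    rw [h1]
    linarith
  exact (abs_le_of_sq_le_sq' h3 (by have := Ac_pos n; positivity)).2

/-- the threshold -/
lemma thr {n : ℕ} {q : Z3} (h : (64 : ℝ) ^ (n / 4) ≤ 4096 * ‖vec q‖ ^ 2) :
    Ac n ^ 2 / 10 ^ 8 ≤ ‖vec q‖ ^ 2 := by
  have h1 := (Pool.Agent.Y978.EK.size n).2
  have h2 := (Pool.Agent.Y809.EK.t_CJ1.2.2.2.1 n).2
  rw [div_le_iff₀ (by positivity)]
  nlinarith [sq_nonneg ‖vec q‖]

/-- one of the two frequencies is damped and large -/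
lemma large {n : ℕ} {k p : Z3} (hk : k ∈ Lev 1 n) (hp : p ≠ 0) (hq : k - p ≠ 0)
    (h : ¬ (lac (nsq p) ∧ lac (nsq (k - p)))) :
    (¬ lac (nsq p) ∧ Ac n ^ 2 / 10 ^ 8 ≤ ‖vec p‖ ^ 2) ∨
      (¬ lac (nsq (k - p)) ∧ Ac n ^ 2 / 10 ^ 8 ≤ ‖vec (k - p)‖ ^ 2) := by
  have hc := Pool.Agent.Y809.EK.t_CJ1
  by_cases h1 : lac (nsq p)
  · have h2 : ¬ lac (nsq (k - p)) := fun h3 => h ⟨h1, h3⟩
    obtain ⟨m, hm⟩ := (lac_iff p).1 h1
    right
    refine ⟨h2, thr ?_⟩
    have h3 := hc.2.2.1 n m k hk (-p) ((hc.2.1 m).2.1 p hm) (by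
      rw [← sub_eq_add_neg]
      exact hq)
    rw [← sub_eq_add_neg] at h3
    exact h3
  · by_cases h2 : lac (nsq (k - p))
    · obtain ⟨m, hm⟩ := (lac_iff (k - p)).1 h2
      left
      refine ⟨h1, thr ?_⟩
      have h3 := hc.2.2.1 n m k hk (-(k - p)) ((hc.2.1 m).2.1 _ hm) (by
        have : k + -(k - p) = p := by abel
        rw [this]
        exact hp)
      have h4 : k + -(k - p) = p := by abel
      rw [h4] at h3
      exact h3
    · have h3 : ‖vec k‖ ≤ ‖vec p‖ + ‖vec (k - p)‖ := by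
        have : vec k = vec p + vec (k - p) := by
          rw [← Pool.Agent.Y248.ND.vec_add]
          congr 1
          abel
        rw [this]
        exact norm_add_le _ _
      have h4 : (64 : ℝ) ^ (n / 4) ≤ ‖vec k‖ ^ 2 := by
        rw [(Pool.Agent.Y809.EK.mem_lev n k).1 hk]
        exact (hc.2.2.2.1 n).1
      have n1 := norm_nonneg (vec p)
      have n2 := norm_nonneg (vec (k - p))
      have n3 := norm_nonneg (vec k)
      rcases le_total ‖vec p‖ ‖vec (k - p)‖ with h5 | h5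
      · right
        refine ⟨h2, thr ?_⟩
        nlinarith
      · left
        refine ⟨h1, thr ?_⟩
        nlinarith

open Classical in
/-- the large damped modes -/
noncomputable def gg (w : Fam) (n : ℕ) (q : Z3) : ℝ :=
  if ¬ lac (nsq q) ∧ Ac n ^ 2 / 10 ^ 8 ≤ ‖vec q‖ ^ 2 then ‖w q‖ else 0

lemma gg_nonneg (w : Fam) (n : ℕ) (q : Z3) : 0 ≤ gg w n q := by
  unfold gg
  split_ifs
  · exact norm_nonneg _
  · exact le_rfl

lemma gg_le (w : Fam) (n : ℕ) (q : Z3) : gg w n q ≤ ‖w q‖ := by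
  unfold gg
  split_ifs
  · exact le_rfl
  · exact norm_nonneg _

lemma summ_sq {w : Fam} (rw' : Rap w) : Summable fun k => ‖w k‖ ^ 2 := by
  have h := Pool.Agent.Y691.ND.F.sum0 rw'
  obtain ⟨M, hM⟩ := rw' 0
  refine Summable.of_nonneg_of_le (fun k => by positivity) (fun k => ?_) (h.mul_left M)
  have := hM k
  rw [pow_zero, one_mul] at this
  calc ‖w k‖ ^ 2 = ‖w k‖ * ‖w k‖ := by ring
    _ ≤ M * ‖w k‖ := by gcongr

lemma summ_gg {w : Fam} (rw' : Rap w) (n : ℕ) : Summable fun k => gg w n k ^ 2 :=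
  Summable.of_nonneg_of_le (fun k => by positivity)
    (fun k => pow_le_pow_left₀ (gg_nonneg w n k) (gg_le w n k) 2) (summ_sq rw')

/-- the bound of one term -/
lemma term {w : Fam} (ow : OT w) {x : ℕ → ℝ} (hw : ∀ n, ∀ k ∈ Lev 1 n, w k = x n • Em n k)
    {n : ℕ} {k : Z3} (hk : k ∈ Lev 1 n) (p : Z3) :
    |inner ℝ (w p) (vec k) * inner ℝ (w (k - p)) (Em n k) -
      inner ℝ (wch x p) (vec k) * inner ℝ (wch x (k - p)) (Em n k)| ≤
      10 * Ac n * (gg w n p * ‖w (k - p)‖ + ‖w p‖ * gg w n (k - p)) := by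
  have hA := Ac_pos n
  have hR : 0 ≤ 10 * Ac n * (gg w n p * ‖w (k - p)‖ + ‖w p‖ * gg w n (k - p)) := by
    have := gg_nonneg w n p
    have := gg_nonneg w n (k - p)
    positivity
  have e1 := wch_eq hw p
  have e2 := wch_eq hw (k - p)
  rcases Classical.em (lac (nsq p) ∧ lac (nsq (k - p))) with hb | hb
  · rw [e1.1 hb.1, e2.1 hb.2, sub_self, abs_zero]
    exact hR
  · have h0 : inner ℝ (wch x p) (vec k) * inner ℝ (wch x (k - p)) (Em n k) = (0 : ℝ) := by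
      rcases Classical.em (lac (nsq p)) with h1 | h1
      · rw [e2.2 (fun h2 => hb ⟨h1, h2⟩), inner_zero_left, mul_zero]
      · rw [e1.2 h1, inner_zero_left, zero_mul]
    rw [h0, sub_zero]
    rcases Classical.em (p = 0) with hp | hp
    · have hp0 : w p = 0 := by
        rw [hp]
        exact Pool.Agent.Y248.ND.OT.zero ow
      have h00 : |inner ℝ (w p) (vec k) * inner ℝ (w (k - p)) (Em n k)| = 0 := by
        rw [hp0, inner_zero_left, zero_mul, abs_zero]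
      rw [h00]
      exact hR
    rcases Classical.em (k - p = 0) with hq | hq
    · have hq0 : w (k - p) = 0 := by
        rw [hq]
        exact Pool.Agent.Y248.ND.OT.zero ow
      have h00 : |inner ℝ (w p) (vec k) * inner ℝ (w (k - p)) (Em n k)| = 0 := by
        rw [hq0, inner_zero_left, mul_zero, abs_zero]
      rw [h00]
      exact hR
    have h2 : |inner ℝ (w p) (vec k) * inner ℝ (w (k - p)) (Em n k)| ≤
        10 * Ac n * (‖w p‖ * ‖w (k - p)‖) := by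
      rw [abs_mul]
      have a1 := abs_real_inner_le_norm (w p) (vec k)
      have a2 := abs_real_inner_le_norm (w (k - p)) (Em n k)
      have a3 := vec_lev hk
      have a4 := norm_Em_le n k
      calc |inner ℝ (w p) (vec k)| * |inner ℝ (w (k - p)) (Em n k)|
          ≤ (‖w p‖ * ‖vec k‖) * (‖w (k - p)‖ * ‖Em n k‖) :=
            mul_le_mul a1 a2 (abs_nonneg _) (by positivity)
        _ ≤ (‖w p‖ * (10 * Ac n)) * (‖w (k - p)‖ * 1) := by gcongr
        _ = _ := by ring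
    refine h2.trans ?_
    apply mul_le_mul_of_nonneg_left _ (by positivity)
    have g1 := gg_nonneg w n p
    have g2 := gg_nonneg w n (k - p)
    rcases large hk hp hq hb with h3 | h3
    · have : gg w n p = ‖w p‖ := if_pos h3
      rw [this]
      have : 0 ≤ ‖w p‖ * gg w n (k - p) := by positivity
      linarith
    · have : gg w n (k - p) = ‖w (k - p)‖ := if_pos h3
      rw [this]
      have : 0 ≤ gg w n p * ‖w (k - p)‖ := by positivity
      linarith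

/-- summation of the bounds of the terms -/
lemma gen {w : Fam} (rw' : Rap w) (h1 : ∑' k, ‖w k‖ ^ 2 ≤ 1) {n : ℕ} {k : Z3} (T : Z3 → ℝ)
    (hT : ∀ p, 0 ≤ T p)
    (hterm : ∀ p, T p ≤ 10 * Ac n * (gg w n p * ‖w (k - p)‖ + ‖w p‖ * gg w n (k - p))) :
    Summable T ∧ ∑' p, T p ≤ 20 * Ac n * √(∑' q, gg w n q ^ 2) := by
  have hA := Ac_pos n
  have sw := summ_sq rw'
  have sg := summ_gg rw' n
  have sw' : Summable fun p => ‖w (k - p)‖ ^ 2 := (Equiv.subLeft k).summable_iff.2 sw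
  have sg' : Summable fun p => gg w n (k - p) ^ 2 := (Equiv.subLeft k).summable_iff.2 sg
  have tw' : ∑' p, ‖w (k - p)‖ ^ 2 = ∑' p, ‖w p‖ ^ 2 :=
    (Equiv.subLeft k).tsum_eq (fun p => ‖w p‖ ^ 2)
  have tg' : ∑' p, gg w n (k - p) ^ 2 = ∑' p, gg w n p ^ 2 :=
    (Equiv.subLeft k).tsum_eq (fun p => gg w n p ^ 2)
  have c1 := cs (gg_nonneg w n) (fun p => norm_nonneg (w (k - p))) sg sw'
  have c2 := cs (fun p => norm_nonneg (w p)) (fun p => gg_nonneg w n (k - p)) sw sg'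
  rw [tw'] at c1
  rw [tg'] at c2
  have hs : √(∑' p, ‖w p‖ ^ 2) ≤ 1 := Real.sqrt_le_one.2 h1
  have hg0 : 0 ≤ √(∑' q, gg w n q ^ 2) := Real.sqrt_nonneg _
  have sR := (c1.1.add c2.1).mul_left (10 * Ac n)
  have hsum : Summable T := Summable.of_nonneg_of_le hT hterm sR
  have b0 : ∑' p, T p ≤ ∑' p, 10 * Ac n * (gg w n p * ‖w (k - p)‖ + ‖w p‖ * gg w n (k - p)) :=
    hsum.tsum_le_tsum hterm sR
  have b1 : ∑' p, gg w n p * ‖w (k - p)‖ ≤ √(∑' q, gg w n q ^ 2) :=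
    c1.2.trans (mul_le_of_le_one_right hg0 hs)
  have b2 : ∑' p, ‖w p‖ * gg w n (k - p) ≤ √(∑' q, gg w n q ^ 2) :=
    c2.2.trans (mul_le_of_le_one_left hg0 hs)
  have b3 : ∑' p, 10 * Ac n * (gg w n p * ‖w (k - p)‖ + ‖w p‖ * gg w n (k - p)) =
      10 * Ac n * (∑' p, gg w n p * ‖w (k - p)‖ + ∑' p, ‖w p‖ * gg w n (k - p)) := by
    rw [tsum_mul_left, c1.1.tsum_add c2.1]
  refine ⟨hsum, b0.trans ?_⟩
  rw [b3]
  calc 10 * Ac n * (∑' p, gg w n p * ‖w (k - p)‖ + ∑' p, ‖w p‖ * gg w n (k - p))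
      ≤ 10 * Ac n * (√(∑' q, gg w n q ^ 2) + √(∑' q, gg w n q ^ 2)) :=
        mul_le_mul_of_nonneg_left (add_le_add b1 b2) (by positivity)
    _ = _ := by ring

/-- the terms of the trilinear form -/
noncomputable def tm (w : Fam) (n : ℕ) (k p : Z3) : ℝ :=
  inner ℝ (w p) (vec k) * inner ℝ (w (k - p)) (Em n k)

lemma summ_tm {w : Fam} (rw' : Rap w) {n : ℕ} {k : Z3} (hk : k ∈ Lev 1 n) :
    Summable (tm w n k) := by
  have sw := summ_sq rw'
  have sw' : Summable fun p => ‖w (k - p)‖ ^ 2 := (Equiv.subLeft k).summable_iff.2 sw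
  have c1 := cs (fun p => norm_nonneg (w p)) (fun p => norm_nonneg (w (k - p))) sw sw'
  have hA := Ac_pos n
  apply Summable.of_norm_bounded (c1.1.mul_left (10 * Ac n))
  intro p
  unfold tm
  rw [Real.norm_eq_abs, abs_mul]
  have a1 := abs_real_inner_le_norm (w p) (vec k)
  have a2 := abs_real_inner_le_norm (w (k - p)) (Em n k)
  have a3 := vec_lev hk
  have a4 := norm_Em_le n k
  calc |inner ℝ (w p) (vec k)| * |inner ℝ (w (k - p)) (Em n k)|
      ≤ (‖w p‖ * ‖vec k‖) * (‖w (k - p)‖ * ‖Em n k‖) :=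
        mul_le_mul a1 a2 (abs_nonneg _) (by positivity)
    _ ≤ (‖w p‖ * (10 * Ac n)) * (‖w (k - p)‖ * 1) := by gcongr
    _ = _ := by ring

/-- the trilinear form with a mode of the chain -/
lemma bil_tm {w : Fam} (n : ℕ) (hs : ∀ k ∈ Lev 1 n, Summable (tm w n k)) :
    bil w w (Em n) = -(2 * Real.pi) * ∑ k ∈ Lev 1 n, ∑' p, tm w n k p := by
  unfold bil
  congr 1
  apply tsum_fin
  · intro p k hk
    show inner ℝ (w p) (vec k) * inner ℝ (w (k - p)) (Em n k) = (0 : ℝ)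
    rw [Pool.Agent.Y809.EK.Em_not hk, inner_zero_right, mul_zero]
  · exact hs

lemma rap_wch {w : Fam} (rw' : Rap w) {x : ℕ → ℝ} (hw : ∀ n, ∀ k ∈ Lev 1 n, w k = x n • Em n k) :
    Rap (wch x) := by
  intro m
  obtain ⟨M, hM⟩ := rw' m
  refine ⟨M, fun k => le_trans ?_ (hM k)⟩
  apply mul_le_mul_of_nonneg_left _ (by positivity)
  rcases Classical.em (lac (nsq k)) with h | h
  · rw [(wch_eq hw k).1 h]
  · rw [(wch_eq hw k).2 h, norm_zero]
    exact norm_nonneg _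

/-- the difference of the trilinear forms -/
lemma diff_le {w : Fam} (ow : OT w) (rw' : Rap w) (h1 : ∑' k, ‖w k‖ ^ 2 ≤ 1) {x : ℕ → ℝ}
    (hw : ∀ n, ∀ k ∈ Lev 1 n, w k = x n • Em n k) (n : ℕ) :
    |bil w w (Em n) - bil (wch x) (wch x) (Em n)| ≤
      960 * Real.pi * (Ac n * √(∑' q, gg w n q ^ 2)) := by
  have s1 : ∀ k ∈ Lev 1 n, Summable (tm w n k) := fun k hk => summ_tm rw' hk
  have s2 : ∀ k ∈ Lev 1 n, Summable (tm (wch x) n k) := fun k hk => summ_tm (rap_wch rw' hw) hk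
  rw [bil_tm n s1, bil_tm n s2, ← mul_sub, ← Finset.sum_sub_distrib, abs_mul, abs_neg,
    abs_of_pos Real.two_pi_pos]
  have h2 : ∀ k ∈ Lev 1 n, |∑' p, tm w n k p - ∑' p, tm (wch x) n k p| ≤
      20 * Ac n * √(∑' q, gg w n q ^ 2) := by
    intro k hk
    have h3 := gen rw' h1 (n := n) (k := k) (fun p => |tm w n k p - tm (wch x) n k p|)
      (fun p => abs_nonneg _) (fun p => term ow hw hk p)
    rw [← (s1 k hk).tsum_sub (s2 k hk)]
    refine le_trans ?_ h3.2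
    have h4 := norm_tsum_le_tsum_norm (f := fun p => tm w n k p - tm (wch x) n k p) (by
      simpa only [Real.norm_eq_abs] using h3.1)
    simpa only [Real.norm_eq_abs] using h4
  have h3 : |∑ k ∈ Lev 1 n, (∑' p, tm w n k p - ∑' p, tm (wch x) n k p)| ≤
      24 * (20 * Ac n * √(∑' q, gg w n q ^ 2)) := by
    refine (Finset.abs_sum_le_sum_abs _ _).trans ((Finset.sum_le_sum h2).trans ?_)
    rw [Finset.sum_const, Pool.Agent.Y809.EK.card_lev, nsmul_eq_mul]
    norm_num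
  calc 2 * Real.pi * |∑ k ∈ Lev 1 n, (∑' p, tm w n k p - ∑' p, tm (wch x) n k p)|
      ≤ 2 * Real.pi * (24 * (20 * Ac n * √(∑' q, gg w n q ^ 2))) :=
        mul_le_mul_of_nonneg_left h3 Real.two_pi_pos.le
    _ = _ := by ring

open Classical in
/-- the large damped modes are small -/
lemma gg_eo {w : Fam} (rw' : Rap w) (n : ℕ) :
    √(∑' q, gg w n q ^ 2) ≤ ((10 : ℝ) ^ 8) ^ (5 / 12 : ℝ) * Ac n ^ (-(5 / 6) : ℝ) *
      √(∑' k, if lac (nsq k) then 0 else (nsq k : ℝ) ^ (5 / 6 : ℝ) * ‖w k‖ ^ 2) := by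
  have hA := Ac_pos n
  set R : ℝ := Ac n ^ 2 / 10 ^ 8 with hR
  have hR0 : 0 < R := by positivity
  set E : ℝ := ∑' k, if lac (nsq k) then 0 else (nsq k : ℝ) ^ (5 / 6 : ℝ) * ‖w k‖ ^ 2 with hE
  have hn0 : ∀ k : Z3, (0 : ℝ) ≤ ((nsq k : ℤ) : ℝ) := fun k => by
    rw [← nsq_vec]
    positivity
  have hE0 : ∀ k : Z3, 0 ≤ (if lac (nsq k) then 0 else (nsq k : ℝ) ^ (5 / 6 : ℝ) * ‖w k‖ ^ 2) := by
    intro k
    split_ifs
    · exact le_rfl
    · have := hn0 k
      positivity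
  have sE : Summable fun k => if lac (nsq k) then 0 else (nsq k : ℝ) ^ (5 / 6 : ℝ) * ‖w k‖ ^ 2 := by
    refine Summable.of_nonneg_of_le hE0 (fun k => ?_)
      ((Pool.Agent.Y691.ND.F.sum2 rw').add (summ_sq rw'))
    split_ifs
    · positivity
    · have h1 : ((nsq k : ℤ) : ℝ) ^ (5 / 6 : ℝ) ≤ ‖vec k‖ ^ 2 + 1 := by
        rw [nsq_vec]
        rcases le_total ((nsq k : ℤ) : ℝ) 1 with h | h
        · have := Real.rpow_le_one (hn0 k) h (by norm_num : (0 : ℝ) ≤ 5 / 6)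
          have := hn0 k
          linarith
        · have := Real.rpow_le_rpow_of_exponent_le h (by norm_num : (5 / 6 : ℝ) ≤ 1)
          rw [Real.rpow_one] at this
          linarith
      calc ((nsq k : ℤ) : ℝ) ^ (5 / 6 : ℝ) * ‖w k‖ ^ 2 ≤ (‖vec k‖ ^ 2 + 1) * ‖w k‖ ^ 2 := by
            gcongr
        _ = _ := by ring
  have key : ∀ q, gg w n q ^ 2 ≤ R ^ (-(5 / 6) : ℝ) *
      (if lac (nsq q) then 0 else (nsq q : ℝ) ^ (5 / 6 : ℝ) * ‖w q‖ ^ 2) := by
    intro q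
    by_cases h : ¬ lac (nsq q) ∧ Ac n ^ 2 / 10 ^ 8 ≤ ‖vec q‖ ^ 2
    · have e1 : gg w n q = ‖w q‖ := if_pos h
      rw [e1, if_neg h.1, ← mul_assoc]
      have h2 : R ≤ ((nsq q : ℤ) : ℝ) := by
        rw [← nsq_vec]
        exact h.2
      have h3 : R ^ (5 / 6 : ℝ) ≤ ((nsq q : ℤ) : ℝ) ^ (5 / 6 : ℝ) :=
        Real.rpow_le_rpow hR0.le h2 (by norm_num)
      have h4 : R ^ (-(5 / 6) : ℝ) * R ^ (5 / 6 : ℝ) = 1 := by
        rw [← Real.rpow_add hR0]
        norm_num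
      have h5 : 1 ≤ R ^ (-(5 / 6) : ℝ) * ((nsq q : ℤ) : ℝ) ^ (5 / 6 : ℝ) := by
        rw [← h4]
        exact mul_le_mul_of_nonneg_left h3 (by positivity)
      exact le_mul_of_one_le_left (sq_nonneg _) h5
    · have e1 : gg w n q = 0 := if_neg h
      rw [e1, zero_pow two_ne_zero]
      exact mul_nonneg (by positivity) (hE0 q)
  have h1 : ∑' q, gg w n q ^ 2 ≤ R ^ (-(5 / 6) : ℝ) * E := by
    rw [hE, ← tsum_mul_left]
    exact (summ_gg rw' n).tsum_le_tsum key (sE.mul_left _)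
  have h2 : √(R ^ (-(5 / 6) : ℝ)) = ((10 : ℝ) ^ 8) ^ (5 / 12 : ℝ) * Ac n ^ (-(5 / 6) : ℝ) := by
    rw [Real.sqrt_eq_rpow, ← Real.rpow_mul hR0.le, hR, Real.div_rpow (by positivity) (by positivity)]
    rw [← Real.rpow_natCast (Ac n) 2, ← Real.rpow_mul hA.le]
    rw [show (-(5 / 6) * (1 / 2) : ℝ) = -(5 / 12) by norm_num]
    rw [Real.rpow_neg (by positivity) (5 / 12), div_inv_eq_mul, mul_comm]
    congr 2
    norm_num
  calc √(∑' q, gg w n q ^ 2) ≤ √(R ^ (-(5 / 6) : ℝ) * E) := Real.sqrt_le_sqrt h1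
    _ = _ := by rw [Real.sqrt_mul (by positivity), h2]

theorem t_XN4 : S_XN4 := by
  refine ⟨960 * Real.pi * ((10 : ℝ) ^ 8) ^ (5 / 12 : ℝ), by positivity, ?_⟩
  intro w x ow rw' h1 hw n
  have hA := Ac_pos n
  refine (diff_le ow rw' h1 hw n).trans ?_
  have h2 := gg_eo rw' n
  have h3 : Ac n * Ac n ^ (-(5 / 6) : ℝ) = Ac n ^ (1 / 6 : ℝ) := by
    nth_rewrite 1 [← Real.rpow_one (Ac n)]
    rw [← Real.rpow_add hA]
    norm_num
  calc 960 * Real.pi * (Ac n * √(∑' q, gg w n q ^ 2))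
      ≤ 960 * Real.pi * (Ac n * (((10 : ℝ) ^ 8) ^ (5 / 12 : ℝ) * Ac n ^ (-(5 / 6) : ℝ) *
        √(open Classical in
          ∑' k, if lac (nsq k) then 0 else (nsq k : ℝ) ^ (5 / 6 : ℝ) * ‖w k‖ ^ 2))) := by
        gcongr
    _ = 960 * Real.pi * ((10 : ℝ) ^ 8) ^ (5 / 12 : ℝ) * (Ac n * Ac n ^ (-(5 / 6) : ℝ)) *
        √(open Classical in
          ∑' k, if lac (nsq k) then 0 else (nsq k : ℝ) ^ (5 / 6 : ℝ) * ‖w k‖ ^ 2) := by ring
    _ = _ := by rw [h3]

end Pool.Agent.Y177.VL.XN4
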